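import Mathlib

namespace Pool.Agent.Results.MP_1f00fa_co.Disproof

/-- The circulant graph `Cay(Z_n, C)` for a symmetric connection set `C` without `0`. -/
def cay {n : ℕ} (C : Set (ZMod n)) (h0 : 0 ∉ C) (hs : ∀ x ∈ C, -x ∈ C) : SimpleGraph (ZMod n) where
  Adj i j := j - i ∈ C
  symm := ⟨fun i j h => by simpa using hs _ h⟩
  loopless := ⟨fun i h => h0 (by simpa using h)⟩

/-- The list `l` of distinct vertices is an induced path: two of its vertices are adjacent exactly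
when they are consecutive. -/
def IsInducedPath {V : Type} (G : SimpleGraph V) (l : List V) : Prop :=
  l.Nodup ∧ ∀ i j : Fin l.length, G.Adj l[i] l[j] ↔ (i.val + 1 = j.val ∨ j.val + 1 = i.val)

/-- No three distinct vertices of `S` lie on a common induced path. -/
def IsMonoPos {V : Type} (G : SimpleGraph V) (S : Finset V) : Prop :=
  ∀ x ∈ S, ∀ y ∈ S, ∀ z ∈ S, x ≠ y → x ≠ z → y ≠ z →
    ¬ ∃ l, IsInducedPath G l ∧ x ∈ l ∧ y ∈ l ∧ z ∈ l

/-- `mp(G) = k`. -/
def MpEq {V : Type} (G : SimpleGraph V) (k : ℕ) : Prop :=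
  IsGreatest {m | ∃ S : Finset V, IsMonoPos G S ∧ S.card = m} k

lemma clique_mono {V : Type} (G : SimpleGraph V) (S : Finset V)
    (h : ∀ x ∈ S, ∀ y ∈ S, x ≠ y → G.Adj x y) : IsMonoPos G S := by
  rintro x hx y hy z hz h1 h2 h3 ⟨l, ⟨-, hl⟩, a, b, c⟩
  obtain ⟨i, rfl⟩ := List.mem_iff_get.1 a
  obtain ⟨j, rfl⟩ := List.mem_iff_get.1 b
  obtain ⟨k, rfl⟩ := List.mem_iff_get.1 c
  have e1 := (hl i j).1 (h _ hx _ hy h1)
  have e2 := (hl i k).1 (h _ hx _ hz h2)
  have e3 := (hl j k).1 (h _ hy _ hz h3)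
  omega

lemma twin_mono {V : Type} (G : SimpleGraph V) (S : Finset V)
    (h : ∀ x ∈ S, ∀ y ∈ S, ∀ w, G.Adj x w → G.Adj y w) : IsMonoPos G S := by
  rintro x hx y hy z hz h1 h2 h3 ⟨l, ⟨-, hl⟩, a, b, c⟩
  obtain ⟨i, rfl⟩ := List.mem_iff_get.1 a
  obtain ⟨j, rfl⟩ := List.mem_iff_get.1 b
  obtain ⟨k, rfl⟩ := List.mem_iff_get.1 c
  have key : ∀ i j k : Fin l.length, l.get i ∈ S → l.get j ∈ S → i < j → j < k → False :=
    fun i j k hi hj h1 h2 => by
      have hk := k.2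
      have h1' : i.val < j.val := h1
      have h2' : j.val < k.val := h2
      have e1 := (hl j ⟨j + 1, by omega⟩).2 (Or.inl rfl)
      have e2 := (hl i ⟨j + 1, by omega⟩).1 (h _ hj _ hi _ e1)
      simp only at e2
      omega
  have n1 : i ≠ j := fun e => h1 (by rw [e])
  have n2 : i ≠ k := fun e => h2 (by rw [e])
  have n3 : j ≠ k := fun e => h3 (by rw [e])
  rcases lt_or_gt_of_ne n1 with a1 | a1 <;> rcases lt_or_gt_of_ne n2 with a2 | a2 <;>
    rcases lt_or_gt_of_ne n3 with a3 | a3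
  · exact key i j k hx hy a1 a3
  · exact key i k j hx hz a2 a3
  · exact absurd (a1.trans a3) (not_lt.2 a2.le)
  · exact key k i j hz hx a2 a1
  · exact key j i k hy hx a1 a2
  · exact absurd (a2.trans a3) (not_lt.2 a1.le)
  · exact key j k i hy hz a3 a2
  · exact key k j i hz hy a3 a1

lemma near {V : Type} (G : SimpleGraph V) (u v : V) (h : G.edist u v ≤ 2) :
    u = v ∨ G.Adj u v ∨ ∃ w, G.Adj u w ∧ G.Adj w v := by
  obtain ⟨p, hp⟩ := SimpleGraph.exists_walk_of_edist_ne_top (ne_top_of_le_ne_top (by simp) h)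
  rw [← hp] at h
  have h' : p.length ≤ 2 := by exact_mod_cast h
  match p, h' with
  | .nil, _ => exact Or.inl rfl
  | .cons h1 .nil, _ => exact Or.inr (Or.inl h1)
  | .cons h1 (.cons h2 .nil), _ => exact Or.inr (Or.inr ⟨_, h1, h2⟩)
  | .cons _ (.cons _ (.cons _ _)), h' => simp at h'

def vec (a b c d e f g : Bool) : ZMod 15 → Bool :=
  ![false, a, b, c, d, e, f, g, g, f, e, d, c, b, a]

lemma cases15 : ∀ a b c d e f g : Bool,
    (∀ v : ZMod 15, 0 = v ∨ vec a b c d e f g v = true ∨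
      ∃ w, vec a b c d e f g w = true ∧ vec a b c d e f g (v - w) = true) →
    (∃ x y : ZMod 15, vec a b c d e f g x = true ∧ vec a b c d e f g y = true ∧
      vec a b c d e f g (y - x) = true) ∨
    (∀ x, vec a b c d e f g x = true → vec a b c d e f g (x + 5) = true) := by
  decide +kernel

lemma fifteen (C : Set (ZMod 15)) (h0 : 0 ∉ C) (hs : ∀ x ∈ C, -x ∈ C)
    (hd : (cay C h0 hs).ediam = 2) : ∃ S : Finset (ZMod 15), IsMonoPos (cay C h0 hs) S ∧ S.card = 3 := by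
  classical
  have hn : ∀ x, -x ∈ C ↔ x ∈ C := fun x => ⟨fun h => by simpa using hs _ h, hs x⟩
  have hv : ∀ x, vec (decide (1 ∈ C)) (decide (2 ∈ C)) (decide (3 ∈ C)) (decide (4 ∈ C))
      (decide (5 ∈ C)) (decide (6 ∈ C)) (decide (7 ∈ C)) x = true ↔ x ∈ C := by
    intro x
    fin_cases x
    · exact ⟨fun h => absurd h Bool.false_ne_true, fun h => absurd h h0⟩
    all_goals first
      | exact decide_eq_true_iff
      | exact decide_eq_true_iff.trans (hn _).symm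
  have h1 := cases15 (decide (1 ∈ C)) (decide (2 ∈ C)) (decide (3 ∈ C)) (decide (4 ∈ C))
      (decide (5 ∈ C)) (decide (6 ∈ C)) (decide (7 ∈ C))
  simp only [hv] at h1
  rcases h1 (fun v => by
    simpa [cay] using near (cay C h0 hs) 0 v (hd ▸ SimpleGraph.edist_le_ediam)) with
    ⟨x, y, a1, a2, a3⟩ | h5
  · have n1 : (0 : ZMod 15) ≠ x := fun e => h0 (e ▸ a1)
    have n2 : (0 : ZMod 15) ≠ y := fun e => h0 (e ▸ a2)
    have n3 : x ≠ y := fun e => h0 (by simpa [e] using a3)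
    refine ⟨{0, x, y}, clique_mono _ _ ?_, Finset.card_eq_three.2 ⟨0, x, y, n1, n2, n3, rfl⟩⟩
    have b1 := hs _ a1
    have b2 := hs _ a2
    have b3 := hs _ a3
    simp only [Finset.mem_insert, Finset.mem_singleton]
    rintro _ (rfl | rfl | rfl) _ (rfl | rfl | rfl) h <;> simp_all [cay]
  · refine ⟨{0, 5, 10}, twin_mono _ _ ?_, by decide⟩
    have key : ∀ x ∈ ({0, 5, 10} : Finset (ZMod 15)), ∀ y ∈ ({0, 5, 10} : Finset (ZMod 15)), ∀ w,
        w - y = w - x ∨ w - y = w - x + 5 ∨ w - y = w - x + 5 + 5 := by decide +kernel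
    intro x hx y hy w h
    show w - y ∈ C
    rcases key x hx y hy w with e | e | e <;> rw [e]
    · exact h
    · exact h5 _ h
    · exact h5 _ (h5 _ h)

/-- No circulant graph of order `15` has monophonic position number `2` and diameter `2`. -/
theorem result : ∃ n : ℕ, 11 ≤ n ∧ ¬ ∃ (C : Set (ZMod n)) (h0 : 0 ∉ C) (hs : ∀ x ∈ C, -x ∈ C),
    MpEq (cay C h0 hs) 2 ∧ (cay C h0 hs).ediam = 2 := by
  refine ⟨15, by norm_num, ?_⟩
  rintro ⟨C, h0, hs, h1, h2⟩
  exact absurd (h1.2 (fifteen C h0 hs h2)) (by norm_num)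

end Pool.Agent.Results.MP_1f00fa_co.Disproof
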